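import Mathlib

namespace Pool.Agent.Results.MP_fb91b8_co.Counter

open Equiv

/-- the `n`-cycles of `Fin n` -/
abbrev Cyc (n : ℕ) := {γ : Perm (Fin n) // γ.IsCycle ∧ γ.support = Finset.univ}

def Gam (n : ℕ) : SimpleGraph (Cyc n) where
  Adj γ δ := γ ≠ δ ∧ ∃ a b : Fin n, a.val + 1 = b.val ∧ δ.1 = swap a b * γ.1 * swap a b
  symm := ⟨fun γ δ ⟨h, a, b, e, h'⟩ => ⟨h.symm, a, b, e, by
    rw [h']; simp [← mul_assoc]⟩⟩
  loopless := ⟨fun _ h => h.1 rfl⟩

def invL : List ℕ → ℕ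
  | [] => 0
  | x :: l => l.countP (· < x) + invL l

def Admissible (n : ℕ) (l : List ℕ) : Bool :=
  (List.range (n + 1)).all fun k => 2 * (l.take k).sum ≤ k * (n + 1)

/-- put `v` at the leftmost place that has no larger value after it and keeps admissibility -/
def move (n : ℕ) (l : List ℕ) (v : ℕ) : List ℕ :=
  (((List.range n).map fun p => (l.erase v).insertIdx p v).find? fun l' =>
    Admissible n l' && (l'.dropWhile (· != v)).all (· ≤ v)).getD l

def pi0 (n : ℕ) : List ℕ :=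
  ((List.range (n / 2)).map fun t => n - t).foldl (move n)
    (((List.range (n - n / 2)).map fun i => n - n / 2 - i) ++ (List.range (n / 2)).map fun i => n - i)

example : pi0 12 = [6, 5, 4, 3, 12, 2, 11, 1, 10, 9, 8, 7] := by decide +kernel

def inv {n : ℕ} (σ : Fin n → Fin n) : ℕ :=
  (Finset.univ.filter fun p : Fin n × Fin n => p.1 < p.2 ∧ σ p.2 < σ p.1).card

theorem inv_swap {n : ℕ} (σ : Perm (Fin n)) (a b : Fin n) (h : a.val + 1 = b.val) :
    inv (swap a b * σ) ≤ inv σ + 1 := by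
  refine (Finset.card_le_card (t := insert (σ⁻¹ a, σ⁻¹ b) _) fun p hp => ?_).trans
    (Finset.card_insert_le _ _)
  simp only [Finset.mem_filter, Finset.mem_univ, true_and, Finset.mem_insert, Perm.mul_apply,
    Prod.ext_iff, Perm.eq_inv_iff_eq, swap_apply_def] at hp ⊢
  obtain ⟨h1, h2⟩ := hp
  simp only [h1, true_and]
  split_ifs at h2 <;> omega

theorem walk {n : ℕ} {γ δ : Cyc n} (p : (Gam n).Walk γ δ) :
    ∃ σ : Perm (Fin n), inv σ ≤ p.length ∧ γ.1 = σ * δ.1 * σ⁻¹ := by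
  induction p with
  | nil => exact ⟨1, by simp [inv]; omega, by simp⟩
  | cons h p ih =>
    obtain ⟨σ, h1, h2⟩ := ih
    obtain ⟨-, a, b, e, h⟩ := h.symm
    refine ⟨swap a b * σ, (inv_swap σ a b e).trans (by simpa using h1), ?_⟩
    rw [h, h2]; simp [mul_assoc]

def f : Fin 18 → Fin 18 := ![8, 7, 6, 5, 17, 4, 3, 16, 2, 15, 1, 14, 13, 0, 12, 11, 10, 9]

def g : Fin 18 → Fin 18 := ![13, 10, 8, 6, 5, 3, 2, 1, 0, 17, 16, 15, 14, 12, 11, 9, 7, 4]

def π : Perm (Fin 18) := ⟨f, g, by decide +kernel, by decide +kernel⟩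

theorem result : ∃ (n : ℕ) (c γ : Cyc n), 1 ≤ n ∧ c.1 = finRotate n ∧
    (invL (pi0 n) : ℕ∞) < (Gam n).edist c γ := by
  have hc : (finRotate 18).IsCycle ∧ (finRotate 18).support = Finset.univ :=
    ⟨isCycle_finRotate, support_finRotate⟩
  refine ⟨18, ⟨_, hc⟩, ⟨π * finRotate 18 * π⁻¹, hc.1.conj, by
    rw [Perm.support_conj, hc.2]; simp⟩, by norm_num, rfl, ?_⟩
  rw [show invL (pi0 18) = 82 by decide +kernel, SimpleGraph.edist_comm, SimpleGraph.edist_eq_sInf]
  refine lt_of_lt_of_le (b := ((83 : ℕ) : ℕ∞)) (by norm_num) (le_sInf ?_)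
  rintro _ ⟨p, rfl⟩
  obtain ⟨σ, h1, h2⟩ := walk p
  have h3 : ∀ i, g (σ (i + 1)) = g (σ i) + 1 := fun i => by
    have := congrArg (fun τ : Perm (Fin 18) => π⁻¹ (τ (σ i))) h2
    change π.symm _ = π.symm _ + 1
    simpa using this.symm
  have h4 : ∀ i : Fin 18, g (σ i) = g (σ 0) + i := fun i => by
    induction i using Fin.induction with
    | zero => simp
    | succ i ih => rw [← Fin.coeSucc_eq_succ, h3, ih, add_assoc]
  have h5 : ⇑σ = fun i => f (g (σ 0) + i) := funext fun i => by rw [← h4]; exact (π.right_inv _).symm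
  have h6 : ∀ j : Fin 18, 83 ≤ inv fun i => f (j + i) := by decide +kernel
  have := h6 (g (σ 0))
  rw [← h5] at this
  exact Nat.cast_le.2 (this.trans h1)

end Pool.Agent.Results.MP_fb91b8_co.Counter
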